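import Pool.Agent.H18.N6F.Targets

/-!
# FSQN: squares are open at one
-/

set_option autoImplicit false

open Polynomial NumberField IsDedekindDomain Matrix Pool.Agent.H32.QC Pool.Agent.H34.N6
  Pool.Agent.H18.N6F

namespace Pool.Agent.H50.N6F

theorem pf_SQN : T_SQN := by
  intro F _ _ h2
  have hd : HasStrictDerivAt (fun x : F => x ^ 2) (2 : F) (1 : F) := by
    have h := hasStrictDerivAt_pow 2 (1 : F)
    simpa using h
  have hm : Filter.map (fun x : F => x ^ 2) (nhds (1 : F)) = nhds ((1 : F) ^ 2) :=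
    hd.map_nhds_eq h2
  rw [one_pow] at hm
  have hs : {x : F | IsSquare x} ∈ nhds (1 : F) := by
    rw [← hm, Filter.mem_map]
    refine Filter.Eventually.of_forall fun x => ?_
    exact ⟨x, by ring⟩
  obtain ⟨ε, hε, h⟩ := Metric.mem_nhds_iff.1 hs
  exact ⟨ε, hε, fun x hx => h (by rw [Metric.mem_ball, dist_eq_norm]; exact hx)⟩

end Pool.Agent.H50.N6F
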